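import Pool.Agent.W187.WQ.Fx2

set_option autoImplicit false

/-!
Tables of shifted moments (project WQ, part GTAB).
-/

open MeasureTheory Set
open Pool.Agent.W187.WP Pool.Agent.W187.WQ

namespace Pool.Agent.W376.WQ

theorem apx_getD {D ε : ℝ} {f : ℕ → ℝ} {l : List ℤ} {k : ℕ} (h : Apx D ε f k l) (i : ℕ)
    (hi : i < l.length) : |D * f (k + i) - ((l.getD i 0 : ℤ) : ℝ)| ≤ ε := by
  induction l generalizing k i with
  | nil => simp at hi
  | cons a l ih =>
    obtain ⟨h1, h2⟩ := h
    cases i with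
    | zero => simpa using h1
    | succ i =>
      have h3 := ih h2 i (by simpa using hi)
      rw [List.getD_cons_succ]
      have e : k + (i + 1) = k + 1 + i := by ring
      rw [e]
      exact h3

theorem apx_mono {D ε ε' : ℝ} {f : ℕ → ℝ} {l : List ℤ} {k : ℕ} (h : Apx D ε f k l)
    (hε : ε ≤ ε') : Apx D ε' f k l := by
  induction l generalizing k with
  | nil => trivial
  | cons a l ih => exact ⟨h.1.trans hε, ih h.2⟩

theorem apx_drop {D ε : ℝ} {f : ℕ → ℝ} (e : ℕ) {l : List ℤ} {k : ℕ} (h : Apx D ε f k l) :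
    Apx D ε f (k + e) (l.drop e) := by
  induction e generalizing k l with
  | zero => simpa using h
  | succ e ih =>
    cases l with
    | nil => trivial
    | cons a l =>
      rw [List.drop_succ_cons]
      have h1 := ih h.2
      have e1 : k + (e + 1) = k + 1 + e := by ring
      rw [e1]
      exact h1

theorem apx_evs {D ε : ℝ} {f : ℕ → ℝ} (c : ℕ) : ∀ (l : List ℤ) (k : ℕ), Apx D ε f (c + 2 * k) l →
    Apx D ε (fun i => f (c + 2 * i)) k (evs l)
  | [], _, _ => trivial
  | [_], _, h => ⟨h.1, trivial⟩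
  | _ :: _ :: l, k, h => by
    refine ⟨h.1, apx_evs c l (k + 1) ?_⟩
    have e : c + 2 * (k + 1) = c + 2 * k + 1 + 1 := by ring
    rw [e]
    exact h.2.2

theorem evs_length : ∀ l : List ℤ, (evs l).length = (l.length + 1) / 2
  | [] => rfl
  | [_] => by simp [evs]
  | _ :: _ :: l => by
    rw [evs, List.length_cons, evs_length l, List.length_cons, List.length_cons]
    omega

theorem rstep_length (s D : ℤ) : ∀ l : List ℤ, (rstep s D l).length = l.length - 1
  | [] => rfl
  | [_] => rfl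
  | _ :: b :: l => by
    have h := rstep_length s D (b :: l)
    simp only [rstep, List.length_cons] at h ⊢
    omega

theorem st_length (s D : ℤ) (i : ℕ) (l : List ℤ) : (st s D i l).length = l.length - i := by
  induction i generalizing l with
  | zero => rfl
  | succ i ih =>
    rw [st, ih, rstep_length]
    omega

theorem st_add (s D : ℤ) (i j : ℕ) (l : List ℤ) : st s D i (st s D j l) = st s D (j + i) l := by
  induction j generalizing l with
  | zero => rw [st, zero_add]
  | succ j ih =>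
    rw [st, ih, show j + 1 + i = (j + i) + 1 by ring, st]

theorem st_apx (hrow : S_ROW) (D s : ℤ) (sr M : ℝ) (F : ℕ → ℕ → ℝ) (hD : 0 < D)
    (hs : |(D : ℝ) * sr - (s : ℝ)| ≤ 1) (hsr : |sr| ≤ 2) (hM : 0 ≤ M) (hF : ∀ N j, |F N j| ≤ M)
    (hrec : ∀ N j, F (N + 1) j = F N (j + 1) - sr * F N j) (i : ℕ) :
    ∀ (N0 : ℕ) (ε : ℝ) (l : List ℤ), 0 ≤ ε → 3 ^ i * (ε + (M + 2) / 2) ≤ D →
      Apx D ε (F N0) 0 l →
      Apx D (3 ^ i * (ε + (M + 2) / 2) - (M + 2) / 2) (F (N0 + i)) 0 (st s D i l) := by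
  induction i with
  | zero =>
    intro N0 ε l _ _ h
    have e : (3 : ℝ) ^ 0 * (ε + (M + 2) / 2) - (M + 2) / 2 = ε := by ring
    rw [e]
    exact h
  | succ i ih =>
    intro N0 ε l hε hle h
    have h3 : (1 : ℝ) ≤ 3 ^ (i + 1) := one_le_pow₀ (by norm_num)
    have hεD : ε ≤ D := by
      refine le_trans ?_ hle
      calc ε ≤ 1 * (ε + (M + 2) / 2) := by linarith
        _ ≤ 3 ^ (i + 1) * (ε + (M + 2) / 2) := mul_le_mul_of_nonneg_right h3 (by linarith)
    have h1 := hrow D s sr ε M (F N0) 0 l hD hε hεD hs hsr (hF N0) h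
    have h2 : (fun j => F N0 (j + 1) - sr * F N0 j) = F (N0 + 1) := by
      funext j
      exact (hrec N0 j).symm
    rw [h2] at h1
    have e1 : (3 : ℝ) ^ (i + 1) * (ε + (M + 2) / 2) =
        3 ^ i * (3 * ε + M + 2 + (M + 2) / 2) := by
      rw [pow_succ]; ring
    have h4 := ih (N0 + 1) (3 * ε + M + 2) (rstep s D l) (by linarith) (by rw [← e1]; exact hle) h1
    rw [e1, st]
    have e2 : N0 + (i + 1) = N0 + 1 + i := by ring
    rw [e2]
    exact h4

theorem addz_getD : ∀ (p q : List ℤ) (i : ℕ), i < p.length → i < q.length →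
    (addz p q).getD i 0 = p.getD i 0 + q.getD i 0
  | [], _, i, h, _ => by simp at h
  | _ :: _, [], i, _, h => by simp at h
  | a :: p, b :: q, 0, _, _ => by simp [addz]
  | a :: p, b :: q, i + 1, h, h' => by
    simp only [addz, List.getD_cons_succ]
    exact addz_getD p q i (by simpa using h) (by simpa using h')

theorem gtab_row (s D : ℤ) (e : ℕ) (Rs : List (List ℤ)) (n : ℕ) : ∀ (k : ℕ) (rj rv : List ℤ), k < n →
    (gtab s D e Rs n rj rv).getD k [] =
      addz (Rs.map (fun r => doti r (evs ((st s D (2 * k) rj).drop e)) / D))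
        ((evs ((st s D (2 * k) rv).drop e)).map (fun v => 2 * v)) := by
  induction n with
  | zero => intro k _ _ hk; omega
  | succ n ih =>
    intro k rj rv hk
    cases k with
    | zero => simp [gtab, st]
    | succ k =>
      rw [gtab, List.getD_cons_succ, ih k _ _ (by omega)]
      have e1 : 2 * (k + 1) = 2 * k + 1 + 1 := by ring
      rw [e1]
      simp only [st]

theorem wtab_row (s D : ℤ) (e n' : ℕ) (n : ℕ) : ∀ (k : ℕ) (rj : List ℤ), k < n →
    (wtab s D e n' n rj).getD k [] = (evs ((st s D (2 * k) rj).drop e)).take n' := by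
  induction n with
  | zero => intro k _ hk; omega
  | succ n ih =>
    intro k rj hk
    cases k with
    | zero => simp [wtab, st]
    | succ k =>
      rw [wtab, List.getD_cons_succ, ih k _ (by omega)]
      have e1 : 2 * (k + 1) = 2 * k + 1 + 1 := by ring
      rw [e1]
      simp only [st]

/-- rows of a table, even entries -/
theorem row_apx (hrow : S_ROW) (D s : ℤ) (sr M E ε : ℝ) (F : ℕ → ℕ → ℝ) (hD : 0 < D)
    (hs : |(D : ℝ) * sr - (s : ℝ)| ≤ 1) (hsr : |sr| ≤ 2) (hM : 0 ≤ M) (hF : ∀ N j, |F N j| ≤ M)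
    (hrec : ∀ N j, F (N + 1) j = F N (j + 1) - sr * F N j) (hε : 0 ≤ ε) (n e k : ℕ) (he : e ≤ 1)
    (hk : k < n) (hE : 3 ^ (2 * n + 1) * (ε + (M + 2) / 2) ≤ E) (hED : E ≤ D) (l : List ℤ)
    (h : Apx D ε (F 0) 0 l) :
    Apx D E (fun i => F (e + 2 * k) (e + 2 * i)) 0
      (evs ((st s D (2 * k) (st s D e l)).drop e)) := by
  have hle : (3 : ℝ) ^ (e + 2 * k) * (ε + (M + 2) / 2) ≤ E := by
    refine le_trans ?_ hE
    apply mul_le_mul_of_nonneg_right _ (by linarith)
    exact pow_le_pow_right₀ (by norm_num) (by omega)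
  have h1 := st_apx hrow D s sr M F hD hs hsr hM hF hrec (e + 2 * k) 0 ε l hε (hle.trans hED) h
  rw [zero_add] at h1
  rw [st_add]
  have h2 : Apx D E (F (e + 2 * k)) 0 (st s D (e + 2 * k) l) := apx_mono h1 (by linarith)
  have h3 := apx_drop e h2
  have h4 := apx_evs (f := F (e + 2 * k)) e (List.drop e (st s D (e + 2 * k) l)) 0
    (by simpa using h3)
  exact h4

theorem gtab_ok (hdot : S_DOT) (hrow : S_ROW) (hjv : S_JV) : S_GTAB := by
  intro D s sr lo hi ε S E m e n nR Lr f Rs rj rv hD he hε hs hsr hlo hlh hhi hlos hhis hj hv hnR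
    hRs hrjl hrvl hE hED k hk l hl
  obtain ⟨hrecJ, hrecV, hb⟩ := hjv m sr lo hi
  obtain ⟨hbJ, hbV⟩ := hb hlo hlh hhi hlos hhis
  have hm0 : (0 : ℝ) ≤ m := Nat.cast_nonneg m
  have hDr : (0 : ℝ) < D := by exact_mod_cast hD
  have h3p : (0 : ℝ) < 3 ^ (2 * n + 1) := by positivity
  have hEJ : 3 ^ (2 * n + 1) * (ε + (2 + 2) / 2) ≤ E := by
    refine le_trans (mul_le_mul_of_nonneg_left ?_ h3p.le) hE
    linarith
  have hEV : 3 ^ (2 * n + 1) * (ε + (m + 2) / 2) ≤ E := by
    refine le_trans (mul_le_mul_of_nonneg_left ?_ h3p.le) hE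
    linarith
  have hE0 : 0 ≤ E := le_trans (by positivity) hEJ
  have aJ := row_apx hrow D s sr 2 E ε (Jf sr lo hi) hD hs hsr (by norm_num) hbJ hrecJ hε n e k he hk
    hEJ hED rj hj
  have aV := row_apx hrow D s sr m E ε (Vf m sr lo hi) hD hs hsr hm0 hbV hrecV hε n e k he hk
    hEV hED rv hv
  obtain ⟨r1, r2, r3⟩ := hRs l hl
  have lenJ : (evs ((st s D (2 * k) (st s D e rj)).drop e)).length =
      (rj.length - e - 2 * k - e + 1) / 2 := by
    rw [evs_length, List.length_drop, st_length, st_length]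
  have lenV : (evs ((st s D (2 * k) (st s D e rv)).drop e)).length =
      (rv.length - e - 2 * k - e + 1) / 2 := by
    rw [evs_length, List.length_drop, st_length, st_length]
  have hent : enti (gtab s D e Rs n (st s D e rj) (st s D e rv)) k l =
      doti (Rs.getD l []) (evs ((st s D (2 * k) (st s D e rj)).drop e)) / D +
      2 * (evs ((st s D (2 * k) (st s D e rv)).drop e)).getD l 0 := by
    rw [enti, gtab_row s D e Rs n k _ _ hk, addz_getD]
    · congr 1
      · rw [List.getD_eq_getElem _ _ (by rw [List.length_map, hnR]; exact hl), List.getElem_map,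
          List.getD_eq_getElem _ _ (by rw [hnR]; exact hl)]
      · rw [List.getD_eq_getElem _ _ (by rw [List.length_map, lenV]; omega), List.getElem_map,
          List.getD_eq_getElem _ _ (by rw [lenV]; omega)]
    · rw [List.length_map, hnR]; exact hl
    · rw [List.length_map, lenV]; omega
  have hdt := hdot D 2 E 2 S (f l) (fun i => Jf sr lo hi (e + 2 * k) (e + 2 * i)) (Rs.getD l [])
    (evs ((st s D (2 * k) (st s D e rj)).drop e)) 0 0 hD (by norm_num) hE0 (fun j => hbJ _ _) r2 aJ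
    r3 (by rw [lenJ]; omega)
  simp only [zero_add] at hdt
  have hvt := apx_getD aV l (by rw [lenV]; omega)
  simp only [zero_add] at hvt
  rw [hent]
  push_cast
  have hL : (((Rs.getD l []).length : ℕ) : ℝ) ≤ Lr := by exact_mod_cast r1
  rw [abs_le] at hdt hvt ⊢
  have e1 : ∀ a b x y : ℝ, D * (a + 2 * b) - (x + 2 * y) = (D * a - x) + 2 * (D * b - y) := by
    intro a b x y; ring
  rw [e1]
  constructor
  · linarith [hdt.1, hvt.1]
  · linarith [hdt.2, hvt.2]

theorem wtab_ok (hrow : S_ROW) (hjv : S_JV) : S_WTAB := by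
  intro D s sr lo hi ε E e n n' rj hD he hε hs hsr hlo hlh hhi hlos hhis hj hrjl hE hED k hk l hl
  obtain ⟨hrecJ, _, hb⟩ := hjv 0 sr lo hi
  obtain ⟨hbJ, _⟩ := hb hlo hlh hhi hlos hhis
  have h3p : (0 : ℝ) < 3 ^ (2 * n + 1) := by positivity
  have hEJ : 3 ^ (2 * n + 1) * (ε + (2 + 2) / 2) ≤ E := by
    refine le_trans (mul_le_mul_of_nonneg_left ?_ h3p.le) hE
    linarith
  have aJ := row_apx hrow D s sr 2 E ε (Jf sr lo hi) hD hs hsr (by norm_num) hbJ hrecJ hε n e k he hk
    hEJ hED rj hj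
  have lenJ : (evs ((st s D (2 * k) (st s D e rj)).drop e)).length =
      (rj.length - e - 2 * k - e + 1) / 2 := by
    rw [evs_length, List.length_drop, st_length, st_length]
  have hent : enti (wtab s D e n' n (st s D e rj)) k l =
      (evs ((st s D (2 * k) (st s D e rj)).drop e)).getD l 0 := by
    rw [enti, wtab_row s D e n' n k _ hk]
    rw [List.getD_eq_getElem _ _ (by rw [List.length_take, lenJ]; omega), List.getElem_take,
      List.getD_eq_getElem _ _ (by rw [lenJ]; omega)]
  have hvt := apx_getD aJ l (by rw [lenJ]; omega)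
  simp only [zero_add] at hvt
  rw [hent]
  exact hvt

end Pool.Agent.W376.WQ
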