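import Pool.Agent.W187.WQ.Fx2

set_option autoImplicit false

/-!
The double shift terms for the parameters of length log 5 (project WQ, part JOBS5).
-/

open MeasureTheory Set
open Pool.Agent.W187.WP Pool.Agent.W187.WQ

namespace Pool.Agent.W376.WQ

theorem first_ge (l l' : ℝ) (h : l' ≤ l) (N N' : ℕ) :
    (∫ x in (max l l' - 1)..1, (x - l) ^ N * (x - l') ^ N') = Jf (l' - l) (-1) (1 - l) N' N := by
  rw [max_eq_left h, Jf]
  have h1 := intervalIntegral.integral_comp_add_right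
    (a := -1) (b := 1 - l) (fun x : ℝ => (x - l) ^ N * (x - l') ^ N') l
  have h2 : (-1 : ℝ) + l = l - 1 := by ring
  have h3 : 1 - l + l = 1 := by ring
  rw [h2, h3] at h1
  rw [← h1]
  refine intervalIntegral.integral_congr fun x _ => ?_
  show (x + l - l) ^ N * (x + l - l') ^ N' = (x - (l' - l)) ^ N' * x ^ N
  have h4 : x + l - l = x := by ring
  have h5 : x + l - l' = x - (l' - l) := by ring
  rw [h4, h5, mul_comm]

theorem first_le (l l' : ℝ) (h : l ≤ l') (N N' : ℕ) :
    (∫ x in (max l l' - 1)..1, (x - l) ^ N * (x - l') ^ N') = Jf (l - l') (-1) (1 - l') N N' := by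
  rw [← first_ge l' l h N' N, max_comm]
  refine intervalIntegral.integral_congr fun x _ => ?_
  exact mul_comm _ _

theorem second (l : ℝ) (N N' : ℕ) :
    (∫ x in (l - 1)..(1 - l), (x - l) ^ N * (x + l) ^ N') =
      Jf (-(2 * l)) (-1) (1 - 2 * l) N' N := by
  rw [Jf]
  have h1 := intervalIntegral.integral_comp_add_right
    (a := -1) (b := 1 - 2 * l) (fun x : ℝ => (x - l) ^ N * (x + l) ^ N') l
  have h2 : (-1 : ℝ) + l = l - 1 := by ring
  have h3 : 1 - 2 * l + l = 1 - l := by ring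
  rw [h2, h3] at h1
  rw [← h1]
  refine intervalIntegral.integral_congr fun x _ => ?_
  show (x + l - l) ^ N * (x + l + l) ^ N' = (x - -(2 * l)) ^ N' * x ^ N
  have h4 : x + l - l = x := by ring
  have h5 : x + l + l = x - -(2 * l) := by ring
  rw [h4, h5, mul_comm]

theorem jobs5 : S_JOBS5 := by
  intro N N' _
  have l2 : Real.log 2 < 0.6931471808 := Real.log_two_lt_d9
  have l2' : 0.6931471803 < Real.log 2 := Real.log_two_gt_d9
  have l3 : 1 < Real.log 3 := by
    rw [Real.lt_log_iff_exp_lt (by norm_num)]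
    linarith [Real.exp_one_lt_d9]
  have l4 : Real.log 4 = 2 * Real.log 2 := by
    rw [show (4 : ℝ) = 2 ^ 2 by norm_num, Real.log_pow]
    norm_num
  have l34 : Real.log 3 < Real.log 4 := Real.log_lt_log (by norm_num) (by norm_num)
  have l23 : Real.log 2 < Real.log 3 := Real.log_lt_log (by norm_num) (by norm_num)
  have d0 : ell5 0 = Real.log 2 / (10059 / 12500) := by simp [ell5, ns5]
  have d1 : ell5 1 = Real.log 3 / (10059 / 12500) := by simp [ell5, ns5]
  have d2 : ell5 2 = Real.log 4 / (10059 / 12500) := by simp [ell5, ns5]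
  have hpos : (0 : ℝ) < 10059 / 12500 := by norm_num
  have o01 : ell5 0 ≤ ell5 1 := by
    rw [d0, d1]; exact div_le_div_of_nonneg_right l23.le hpos.le
  have o12 : ell5 1 ≤ ell5 2 := by
    rw [d1, d2]; exact div_le_div_of_nonneg_right l34.le hpos.le
  have o02 := o01.trans o12
  have s00 : ell5 0 + ell5 0 < 2 := by
    rw [d0, ← add_div, div_lt_iff₀ hpos]
    linarith
  have s01 : ¬ ell5 0 + ell5 1 < 2 := by
    rw [not_lt, d0, d1, ← add_div, le_div_iff₀ hpos]
    linarith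
  have s02 : ¬ ell5 0 + ell5 2 < 2 := by linarith
  have s11 : ¬ ell5 1 + ell5 1 < 2 := by linarith
  have s12 : ¬ ell5 1 + ell5 2 < 2 := by linarith
  have s22 : ¬ ell5 2 + ell5 2 < 2 := by linarith
  have s10 : ¬ ell5 1 + ell5 0 < 2 := by linarith
  have s20 : ¬ ell5 2 + ell5 0 < 2 := by linarith
  have s21 : ¬ ell5 2 + ell5 1 < 2 := by linarith
  have S00 : ∀ N N' : ℕ, SS (ell5 0) (ell5 0) N N' = Jf 0 (-1) (1 - ell5 0) N' N +
      Jf (-(2 * ell5 0)) (-1) (1 - 2 * ell5 0) N' N := by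
    intro N N'
    rw [SS, first_ge _ _ le_rfl, if_pos s00, second, sub_self]
  have S11 : ∀ N N' : ℕ, SS (ell5 1) (ell5 1) N N' = Jf 0 (-1) (1 - ell5 1) N' N := by
    intro N N'
    rw [SS, first_ge _ _ le_rfl, if_neg s11, add_zero, sub_self]
  have S22 : ∀ N N' : ℕ, SS (ell5 2) (ell5 2) N N' = Jf 0 (-1) (1 - ell5 2) N' N := by
    intro N N'
    rw [SS, first_ge _ _ le_rfl, if_neg s22, add_zero, sub_self]
  have S01 : ∀ N N' : ℕ, SS (ell5 0) (ell5 1) N N' = Jf (ell5 0 - ell5 1) (-1) (1 - ell5 1) N N' := by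
    intro N N'
    rw [SS, first_le _ _ o01, if_neg s01, add_zero]
  have S10 : ∀ N N' : ℕ, SS (ell5 1) (ell5 0) N N' = Jf (ell5 0 - ell5 1) (-1) (1 - ell5 1) N' N := by
    intro N N'
    rw [SS, first_ge _ _ o01, if_neg s10, add_zero]
  have S02 : ∀ N N' : ℕ, SS (ell5 0) (ell5 2) N N' = Jf (ell5 0 - ell5 2) (-1) (1 - ell5 2) N N' := by
    intro N N'
    rw [SS, first_le _ _ o02, if_neg s02, add_zero]
  have S20 : ∀ N N' : ℕ, SS (ell5 2) (ell5 0) N N' = Jf (ell5 0 - ell5 2) (-1) (1 - ell5 2) N' N := by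
    intro N N'
    rw [SS, first_ge _ _ o02, if_neg s20, add_zero]
  have S12 : ∀ N N' : ℕ, SS (ell5 1) (ell5 2) N N' = Jf (ell5 1 - ell5 2) (-1) (1 - ell5 2) N N' := by
    intro N N'
    rw [SS, first_le _ _ o12, if_neg s12, add_zero]
  have S21 : ∀ N N' : ℕ, SS (ell5 2) (ell5 1) N N' = Jf (ell5 1 - ell5 2) (-1) (1 - ell5 2) N' N := by
    intro N N'
    rw [SS, first_ge _ _ o12, if_neg s21, add_zero]
  simp only [Finset.sum_range_succ, Finset.sum_range_zero, zero_add, S00, S11, S22, S01, S10, S02,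
    S20, S12, S21, jr5, List.map_cons, List.map_nil, List.sum_cons, List.sum_nil]
  ring

end Pool.Agent.W376.WQ
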