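import Pool.Agent.W187.WQ.Fx

set_option autoImplicit false

/-!
Integer certificate of positive semidefiniteness (project WQ, part PSDi).
-/

open Pool.Agent.W187.WP Pool.Agent.W187.WQ

namespace Pool.Agent.W376.WQ

theorem doti_getD (p q : List ℤ) (T : ℕ) (hp : p.length ≤ T) :
    doti p q = ∑ t ∈ Finset.range T, p.getD t 0 * q.getD t 0 := by
  induction p generalizing q T with
  | nil => simp [doti]
  | cons a p ih =>
    cases q with
    | nil => simp [doti]
    | cons b q =>
      obtain ⟨T', rfl⟩ : ∃ T', T = T' + 1 := ⟨T - 1, by simp at hp; omega⟩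
      rw [Finset.sum_range_succ']
      simp only [doti, List.getD_cons_succ, List.getD_cons_zero]
      rw [← ih q T' (by simpa using hp)]
      show a * b + doti p q = doti p q + a * b
      ring

theorem sumZ_eq (n : ℕ) (f : ℕ → ℤ) : sumZ n f = ∑ i ∈ Finset.range n, f i := by
  induction n with
  | zero => rfl
  | succ n ih => rw [sumZ, ih, Finset.sum_range_succ]

theorem psdi : S_PSDi := by
  intro n D S E Nh L N hD _ hE hchk hN c
  have hDr : (0 : ℝ) < D := by exact_mod_cast hD
  have hEr : (0 : ℝ) ≤ E := by exact_mod_cast hE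
  -- a common length bound
  obtain ⟨T, hT⟩ : ∃ T : ℕ, ∀ i < n, (L.getD i []).length ≤ T := by
    refine ⟨∑ i ∈ Finset.range n, (L.getD i []).length, fun i hi => ?_⟩
    exact Finset.single_le_sum (f := fun i => (L.getD i []).length) (fun _ _ => Nat.zero_le _)
      (Finset.mem_range.2 hi)
  set R : ℕ → ℕ → ℝ := fun k l => ((resi Nh L k l : ℤ) : ℝ) with hR
  have hdiag : ∀ i ∈ Finset.range n,
      ∑ j ∈ Finset.range n, (if j = i then 0 else |R i j|) + 2 * n * E ≤ R i i := by
    intro i hi
    have h := (List.all_eq_true.1 hchk) i (List.mem_range.2 (Finset.mem_range.1 hi))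
    have h2 := of_decide_eq_true h
    rw [sumZ_eq] at h2
    have h3 : ((∑ j ∈ Finset.range n, (if j = i then 0 else |resi Nh L i j|) + 2 * (n : ℤ) * E : ℤ)
        : ℝ) ≤ ((resi Nh L i i : ℤ) : ℝ) := by exact_mod_cast h2
    refine le_trans (le_of_eq ?_) h3
    push_cast
    congr 1
  have hsymR : ∀ i j, R i j = R j i := by
    intro i j
    have hd : doti (L.getD i []) (L.getD j []) = doti (L.getD j []) (L.getD i []) := by
      rw [doti_getD _ _ (max (L.getD i []).length (L.getD j []).length) (le_max_left _ _),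
        doti_getD _ _ (max (L.getD i []).length (L.getD j []).length) (le_max_right _ _)]
      exact Finset.sum_congr rfl fun t _ => mul_comm _ _
    simp only [hR, resi, hd]
    rw [add_comm (enti Nh i j)]
  -- the diagonally dominant part
  have hdd : 2 * n * E * ∑ k ∈ Finset.range n, c k ^ 2 ≤
      ∑ k ∈ Finset.range n, ∑ l ∈ Finset.range n, R k l * (c k * c l) := by
    have e1 : ∀ k ∈ Finset.range n, ∀ l ∈ Finset.range n,
        (if l = k then R k k * c k ^ 2 else 0) - (if l = k then 0 else |R k l|) *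
          ((c k ^ 2 + c l ^ 2) / 2) ≤ R k l * (c k * c l) := by
      intro k _ l _
      by_cases h : l = k
      · subst h
        simp only [if_true]
        rw [zero_mul, sub_zero, sq]
      · simp only [if_neg h, zero_sub]
        have h1 : -(|R k l| * ((c k ^ 2 + c l ^ 2) / 2)) ≤ -(|R k l| * |c k * c l|) := by
          apply neg_le_neg
          apply mul_le_mul_of_nonneg_left _ (abs_nonneg _)
          rw [abs_mul]
          nlinarith [sq_nonneg (|c k| - |c l|), sq_abs (c k), sq_abs (c l)]
        refine h1.trans ?_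
        rw [← abs_mul]
        exact neg_abs_le _
    have e2 : ∑ k ∈ Finset.range n, ∑ l ∈ Finset.range n,
        ((if l = k then R k k * c k ^ 2 else 0) - (if l = k then 0 else |R k l|) *
          ((c k ^ 2 + c l ^ 2) / 2)) =
        ∑ k ∈ Finset.range n, (R k k - ∑ l ∈ Finset.range n, (if l = k then 0 else |R k l|)) *
          c k ^ 2 := by
      simp only [Finset.sum_sub_distrib]
      have f1 : ∀ k ∈ Finset.range n, ∑ l ∈ Finset.range n, (if l = k then R k k * c k ^ 2 else 0) =
          R k k * c k ^ 2 := by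
        intro k hk
        rw [Finset.sum_ite_eq', if_pos hk]
      rw [Finset.sum_congr rfl f1]
      have f2 : ∑ k ∈ Finset.range n, ∑ l ∈ Finset.range n, (if l = k then 0 else |R k l|) *
          ((c k ^ 2 + c l ^ 2) / 2) = ∑ k ∈ Finset.range n,
          (∑ l ∈ Finset.range n, (if l = k then 0 else |R k l|)) * c k ^ 2 := by
        have g1 : ∑ k ∈ Finset.range n, ∑ l ∈ Finset.range n, (if l = k then 0 else |R k l|) *
            ((c k ^ 2 + c l ^ 2) / 2) =
            (∑ k ∈ Finset.range n, ∑ l ∈ Finset.range n, (if l = k then 0 else |R k l|) * c k ^ 2) / 2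
            + (∑ k ∈ Finset.range n, ∑ l ∈ Finset.range n, (if l = k then 0 else |R k l|) * c l ^ 2)
            / 2 := by
          rw [← add_div, ← Finset.sum_add_distrib, Finset.sum_div]
          refine Finset.sum_congr rfl fun k _ => ?_
          rw [← Finset.sum_add_distrib, Finset.sum_div]
          refine Finset.sum_congr rfl fun l _ => ?_
          ring
        have g2 : ∑ k ∈ Finset.range n, ∑ l ∈ Finset.range n,
            (if l = k then 0 else |R k l|) * c l ^ 2 =
            ∑ k ∈ Finset.range n, ∑ l ∈ Finset.range n,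
            (if l = k then 0 else |R k l|) * c k ^ 2 := by
          rw [Finset.sum_comm]
          refine Finset.sum_congr rfl fun k _ => Finset.sum_congr rfl fun l _ => ?_
          rw [hsymR l k]
          by_cases h : l = k
          · rw [if_pos h, if_pos h.symm]
          · rw [if_neg h, if_neg (fun h' => h h'.symm)]
        rw [g1, g2, add_halves]
        exact Finset.sum_congr rfl fun k _ => (Finset.sum_mul _ _ _).symm
      rw [f2, ← Finset.sum_sub_distrib]
      exact Finset.sum_congr rfl fun k _ => by ring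
    refine le_trans ?_ (Finset.sum_le_sum fun k hk => Finset.sum_le_sum fun l hl => e1 k hk l hl)
    rw [e2, Finset.mul_sum]
    refine Finset.sum_le_sum fun k hk => ?_
    exact mul_le_mul_of_nonneg_right (by linarith [hdiag k hk]) (sq_nonneg _)
  -- the Gram part
  have hgram : 0 ≤ ∑ k ∈ Finset.range n, ∑ l ∈ Finset.range n,
      ((doti (L.getD k []) (L.getD l []) : ℤ) : ℝ) * (c k * c l) := by
    have e1 : ∑ k ∈ Finset.range n, ∑ l ∈ Finset.range n,
        ((doti (L.getD k []) (L.getD l []) : ℤ) : ℝ) * (c k * c l) =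
        ∑ t ∈ Finset.range T, (∑ k ∈ Finset.range n, (((L.getD k []).getD t 0 : ℤ) : ℝ) * c k) ^ 2 := by
      have f1 : ∀ k ∈ Finset.range n, ∀ l ∈ Finset.range n,
          ((doti (L.getD k []) (L.getD l []) : ℤ) : ℝ) * (c k * c l) = ∑ t ∈ Finset.range T,
            ((((L.getD k []).getD t 0 : ℤ) : ℝ) * c k) * ((((L.getD l []).getD t 0 : ℤ) : ℝ) * c l) := by
        intro k hk l _
        rw [doti_getD _ _ T (hT k (Finset.mem_range.1 hk))]
        push_cast
        rw [Finset.sum_mul]
        exact Finset.sum_congr rfl fun t _ => by ring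
      rw [Finset.sum_congr rfl fun k hk => Finset.sum_congr rfl (f1 k hk)]
      simp only [sq, Finset.sum_mul_sum]
      rw [Finset.sum_congr rfl fun k _ => Finset.sum_comm]
      rw [Finset.sum_comm]
    rw [e1]
    exact Finset.sum_nonneg fun t _ => sq_nonneg _
  -- the matrix `Nh`
  have hNh : 2 * ∑ k ∈ Finset.range n, ∑ l ∈ Finset.range n, ((enti Nh k l : ℤ) : ℝ) * (c k * c l) =
      ∑ k ∈ Finset.range n, ∑ l ∈ Finset.range n, R k l * (c k * c l) +
      2 * ∑ k ∈ Finset.range n, ∑ l ∈ Finset.range n,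
        ((doti (L.getD k []) (L.getD l []) : ℤ) : ℝ) * (c k * c l) := by
    have e1 : ∑ k ∈ Finset.range n, ∑ l ∈ Finset.range n, ((enti Nh l k : ℤ) : ℝ) * (c k * c l) =
        ∑ k ∈ Finset.range n, ∑ l ∈ Finset.range n, ((enti Nh k l : ℤ) : ℝ) * (c k * c l) := by
      rw [Finset.sum_comm]
      exact Finset.sum_congr rfl fun k _ => Finset.sum_congr rfl fun l _ => by
        rw [mul_comm (c l)]
    have e2 : ∑ k ∈ Finset.range n, ∑ l ∈ Finset.range n, R k l * (c k * c l) =
        ∑ k ∈ Finset.range n, ∑ l ∈ Finset.range n, ((enti Nh k l : ℤ) : ℝ) * (c k * c l) +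
        ∑ k ∈ Finset.range n, ∑ l ∈ Finset.range n, ((enti Nh l k : ℤ) : ℝ) * (c k * c l) -
        2 * ∑ k ∈ Finset.range n, ∑ l ∈ Finset.range n,
        ((doti (L.getD k []) (L.getD l []) : ℤ) : ℝ) * (c k * c l) := by
      rw [Finset.mul_sum, ← Finset.sum_add_distrib, ← Finset.sum_sub_distrib]
      refine Finset.sum_congr rfl fun k _ => ?_
      rw [Finset.mul_sum, ← Finset.sum_add_distrib, ← Finset.sum_sub_distrib]
      refine Finset.sum_congr rfl fun l _ => ?_
      simp only [hR, resi]
      push_cast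
      ring
    rw [e2, e1]
    ring
  -- the error
  have herr : ∑ k ∈ Finset.range n, ∑ l ∈ Finset.range n, ((enti Nh k l : ℤ) : ℝ) * (c k * c l) -
      E * (n * ∑ k ∈ Finset.range n, c k ^ 2) ≤
      D * ∑ k ∈ Finset.range n, ∑ l ∈ Finset.range n, N k l * (c k * c l) := by
    have e1 : (n : ℝ) * ∑ k ∈ Finset.range n, c k ^ 2 =
        ∑ k ∈ Finset.range n, ∑ l ∈ Finset.range n, (c k ^ 2 + c l ^ 2) / 2 := by
      have f1 : ∀ k ∈ Finset.range n, ∑ l ∈ Finset.range n, (c k ^ 2 + c l ^ 2) / 2 =
          n * (c k ^ 2 / 2) + (∑ l ∈ Finset.range n, c l ^ 2) / 2 := by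
        intro k _
        rw [← Finset.sum_div, Finset.sum_add_distrib, Finset.sum_const, Finset.card_range,
          nsmul_eq_mul]
        ring
      rw [Finset.sum_congr rfl f1, Finset.sum_add_distrib, Finset.sum_const, Finset.card_range,
        nsmul_eq_mul, ← Finset.mul_sum, ← Finset.sum_div]
      ring
    rw [e1, Finset.mul_sum, Finset.mul_sum, ← Finset.sum_sub_distrib]
    refine Finset.sum_le_sum fun k hk => ?_
    rw [Finset.mul_sum, Finset.mul_sum, ← Finset.sum_sub_distrib]
    refine Finset.sum_le_sum fun l hl => ?_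
    have h1 := hN k (Finset.mem_range.1 hk) l (Finset.mem_range.1 hl)
    have h2 : |(D * N k l - ((enti Nh k l : ℤ) : ℝ)) * (c k * c l)| ≤
        E * ((c k ^ 2 + c l ^ 2) / 2) := by
      rw [abs_mul]
      refine mul_le_mul h1 ?_ (abs_nonneg _) hEr
      rw [abs_mul]
      nlinarith [sq_nonneg (|c k| - |c l|), sq_abs (c k), sq_abs (c l)]
    have h3 := (abs_le.1 h2).1
    have h4 : (D * N k l - ((enti Nh k l : ℤ) : ℝ)) * (c k * c l) =
        D * (N k l * (c k * c l)) - ((enti Nh k l : ℤ) : ℝ) * (c k * c l) := by ring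
    rw [h4] at h3
    linarith
  have hfin : 0 ≤ D * ∑ k ∈ Finset.range n, ∑ l ∈ Finset.range n, N k l * (c k * c l) := by
    have : (2 : ℝ) * n * E * ∑ k ∈ Finset.range n, c k ^ 2 =
      2 * (E * (n * ∑ k ∈ Finset.range n, c k ^ 2)) := by ring
    rw [this] at hdd
    linarith
  exact nonneg_of_mul_nonneg_right hfin hDr

end Pool.Agent.W376.WQ
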